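import Pool.Agent.Lib.MP_2beacb_gt.Core
import Pool.Agent.Lib.MP_2beacb_gt.Irr

/-! No regular analytic space contains a copy of the function space of the irrationals. -/

namespace Pool.Agent.Results.MP_2beacb_gt.NoRegularHost

universe u

/-- The irrational numbers as a subspace of the real line. -/
abbrev Irr : Type := {x : ℝ // Irrational x}

/-- Continuous real functions on `X` as a subspace of the product of lines. -/
abbrev Cp (X : Type) [TopologicalSpace X] : Type := {f : X → ℝ // Continuous f}

/-- A space is analytic if it is empty or a continuous image of the irrationals. -/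
def Analytic (Y : Type u) [TopologicalSpace Y] : Prop :=
  IsEmpty Y ∨ ∃ g : Irr → Y, Continuous g ∧ Function.Surjective g

theorem result (Y : Type u) [TopologicalSpace Y] [RegularSpace Y] (hY : Analytic Y) (Z : Set Y) :
    IsEmpty (Cp Irr ≃ₜ Z) := by
  refine ⟨fun φ => ?_⟩
  obtain h | ⟨g, hg, hgs⟩ := hY
  · exact h.false (φ ⟨0, continuous_zero⟩).1
  have he : Topology.IsInducing fun f => (φ f).1 := Topology.IsInducing.subtypeVal.comp φ.isInducing
  obtain ⟨u, hu, hus⟩ := Pool.Agent.Lib.MP_2beacb_gt.exists_onto_irr
  obtain ⟨r, hr, hrs⟩ := Pool.Agent.Lib.MP_2beacb_gt.exists_from_irr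
  let b : Bool → ℝ := fun t => cond t 1 0
  have hb : Topology.IsEmbedding b := by
    refine (Continuous.isClosedEmbedding continuous_of_discreteTopology ?_).isEmbedding
    intro s t hst
    cases s <;> cases t <;> simp_all [b]
  let j : Pool.Agent.Lib.MP_2beacb_gt.E → Cp Irr :=
    fun f => ⟨fun x => b (f.1 (r x)), hb.continuous.comp (f.2.comp hr)⟩
  have hj : Topology.IsInducing j := by
    rw [Topology.isInducing_iff_nhds]
    intro f
    apply le_antisymm
    · rw [← Filter.map_le_iff_le_comap]
      refine Continuous.tendsto ?_ f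
      refine Continuous.subtype_mk (continuous_pi fun x => ?_) _
      exact hb.continuous.comp ((continuous_apply (r x)).comp continuous_subtype_val)
    · refine (Filter.tendsto_id'.1 ?_)
      rw [tendsto_subtype_rng, tendsto_pi_nhds]
      intro y
      obtain ⟨x, rfl⟩ := hrs y
      rw [hb.tendsto_nhds_iff]
      have h1 : Continuous fun f : Cp Irr => f.1 x :=
        (continuous_apply x).comp continuous_subtype_val
      exact (h1.tendsto (j f)).comp Filter.tendsto_comap
  exact Pool.Agent.Lib.MP_2beacb_gt.core (g ∘ u) _ (hg.comp hu) (hgs.comp hus) (he.comp hj)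

end Pool.Agent.Results.MP_2beacb_gt.NoRegularHost
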